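import Mathlib
import Pool.Agent.H443R3.Attractive

set_option autoImplicit false

open MeasureTheory ProbabilityTheory Filter Topology
open scoped ENNReal Pointwise

namespace Pool.Agent.Results.MP_417bbc_pr.BiasedNoiseErgodic

open Pool.Agent.H443R3 Pool.Agent.H443R3.Attractive

/-- The five-site neighbourhood `{(0,0), (±1,0), (0,±1)}` in `ℤ^2`. -/
def N : Finset (Site 2) := {![0, 0], ![1, 0], ![-1, 0], ![0, 1], ![0, -1]}

/-- The symbol held by at least three of the five sites (`true` stands for `1`). -/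
def maj (u : N → Bool) : Bool :=
  decide (3 ≤ (Finset.univ.filter (fun n : N => u n = true)).card)

/-- The nearest-neighbour majority automaton perturbed by the zero-range noise `θ`: the new symbol
at `i` is drawn from `θ (F(x)_i)`, independently at distinct sites. -/
noncomputable def noisyMajority (θ : Bool → PMF Bool) : PCA 2 Bool where
  nbhd := N
  rule := fun u => θ (maj u)

/-- The error level `max_a (1 - θ(a,a))`. -/
noncomputable def errorLevel (θ : Bool → PMF Bool) : ℝ :=
  max (1 - (θ false false).toReal) (1 - (θ true true).toReal)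

/-! ### The noise -/

theorem pmf_sum (p : PMF Bool) : p true + p false = 1 := by
  have := p.tsum_coe
  rwa [tsum_fintype, Fintype.sum_bool] at this

theorem pmf_ext {p q : PMF Bool} (h : p true = q true) : p = q := by
  have h1 := pmf_sum p
  have h2 := pmf_sum q
  ext b
  cases b with
  | true => exact h
  | false =>
    rw [← h2, h] at h1
    exact (ENNReal.add_right_inj (PMF.apply_ne_top q true)).1 h1

/-- The law of the noise variable: `0` keep, `1` write `true`, `2` write `false`. -/
noncomputable def lam (ε δ : ℝ) (hε : 0 ≤ ε) (hδ : 0 ≤ δ) (h : ε + δ ≤ 1) : PMF (Fin 3) :=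
  PMF.ofFintype ![ENNReal.ofReal (1 - ε - δ), ENNReal.ofReal ε, ENNReal.ofReal δ] (by
    rw [Fin.sum_univ_three]
    simp only [Matrix.cons_val_zero, Matrix.cons_val_one, Matrix.cons_val_two, Matrix.head_cons,
      Matrix.tail_cons, Matrix.cons_val]
    rw [← ENNReal.ofReal_add (by linarith) hε, ← ENNReal.ofReal_add (by linarith) hδ]
    rw [show 1 - ε - δ + ε + δ = 1 by ring, ENNReal.ofReal_one])

/-- The action of the noise variable. -/
def psi (u : N → Bool) (w : Fin 3) : Bool :=
  if w = 1 then true else if w = 2 then false else maj u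

theorem maj_mono {u v : N → Bool} (h : u ≤ v) : maj u ≤ maj v := by
  unfold maj
  rw [Bool.le_iff_imp]
  simp only [decide_eq_true_eq]
  intro h3
  refine h3.trans (Finset.card_le_card ?_)
  intro n hn
  rw [Finset.mem_filter] at hn ⊢
  refine ⟨hn.1, ?_⟩
  have := h n
  rw [hn.2] at this
  exact Bool.eq_true_of_true_le this

theorem psi_mono (u v : N → Bool) (h : u ≤ v) (w : Fin 3) : psi u w ≤ psi v w := by
  unfold psi
  split_ifs
  · exact le_rfl
  · exact le_rfl
  · exact maj_mono h

variable {θ : Bool → PMF Bool} {ε δ : ℝ}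

theorem theta_true_true (hδ : 0 ≤ δ) (h2 : θ true false = ENNReal.ofReal δ) :
    θ true true = ENNReal.ofReal (1 - δ) := by
  have h := pmf_sum (θ true)
  have hfin : θ true false ≠ ∞ := PMF.apply_ne_top _ _
  rw [ENNReal.ofReal_sub _ hδ, ENNReal.ofReal_one, ← h2, ← h, ENNReal.add_sub_cancel_right hfin]

/-- The noisy majority automaton is attractive. -/
noncomputable def rep (hε : 0 ≤ ε) (hδ : 0 ≤ δ) (h : ε + δ ≤ 1)
    (h1 : θ false true = ENNReal.ofReal ε) (h2 : θ true false = ENNReal.ofReal δ) :
    Rep (noisyMajority θ) where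
  lam := lam ε δ hε hδ h
  psi := psi
  rule_eq := by
    intro u
    apply pmf_ext
    rw [PMF.map_apply, tsum_fintype, Fin.sum_univ_three]
    have e0 : lam ε δ hε hδ h 0 = ENNReal.ofReal (1 - ε - δ) := by
      unfold lam; rw [PMF.ofFintype_apply]; rfl
    have e1 : lam ε δ hε hδ h 1 = ENNReal.ofReal ε := by
      unfold lam; rw [PMF.ofFintype_apply]; rfl
    rw [e0, e1]
    show θ (maj u) true = _
    cases hm : maj u with
    | false => simp [psi, hm, h1]
    | true =>
      rw [theta_true_true hδ h2]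
      have : ENNReal.ofReal (1 - δ) = ENNReal.ofReal (1 - ε - δ) + ENNReal.ofReal ε := by
        rw [← ENNReal.ofReal_add (by linarith) hε]
        congr 1
        ring
      rw [this]
      simp [psi, hm]
  mono := psi_mono

/-! ### The two by two block -/

/-- The two by two block. -/
def blk : Finset (Site 2) := {![0, 0], ![1, 0], ![0, 1], ![1, 1]}

/-- The block is full of `1`. -/
noncomputable def b (x : Config 2 Bool) : ℝ≥0∞ := ind blk (fun _ => true) x

theorem b_eq (x : Config 2 Bool) : b x = if ∀ i ∈ blk, x i = true then 1 else 0 := by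
  unfold b ind
  by_cases h : ∀ i ∈ blk, x i = true
  · rw [if_pos h, Set.indicator_of_mem]
    exact fun a => h a a.2
  · rw [if_neg h, Set.indicator_of_notMem]
    exact fun h' => h (fun i hi => h' ⟨i, hi⟩)

theorem b_le_e (x : Config 2 Bool) : b x ≤ e 0 x := by
  rw [b_eq]
  split_ifs with h
  · unfold e
    have h0 : (![0, 0] : Site 2) = 0 := by
      funext i; fin_cases i <;> rfl
    have := h ![0, 0] (by simp [blk])
    rw [h0] at this
    rw [if_pos this]
  · exact zero_le

theorem op_b (x : Config 2 Bool) : (noisyMajority θ).op b x =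
    ∏ i ∈ blk, θ (maj ((noisyMajority θ).pattern x i)) true := by
  have h1 : (noisyMajority θ).op b x = (noisyMajority θ).step x (cyl blk (fun _ => true)) := by
    unfold PCA.op
    exact lintegral_ind _ _ _
  have h2 : (cyl blk (fun _ => true) : Set (Config 2 Bool)) =
      Set.pi (blk : Set (Site 2)) (fun _ => {true}) := by
    ext y
    simp only [cyl, Set.mem_pi, Set.mem_singleton_iff, Set.mem_ofPred_eq]
    constructor
    · intro h i hi
      exact h ⟨i, hi⟩
    · intro h a
      exact h a a.2
  rw [h1, h2]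
  unfold PCA.step
  rw [Measure.infinitePi_pi _ (fun _ _ => MeasurableSet.singleton true)]
  apply Finset.prod_congr rfl
  intro i _
  exact PMF.toMeasure_apply_singleton _ _ (MeasurableSet.singleton true)

theorem card_blk : blk.card = 4 := by decide

theorem maj_of_three (u : N → Bool) (A : Finset (Site 2)) (hA : A ⊆ N) (hc : A.card = 3)
    (hx : ∀ (n : Site 2) (hn : n ∈ A), u ⟨n, hA hn⟩ = true) : maj u = true := by
  unfold maj
  rw [decide_eq_true_eq, ← hc]
  have h1 : A.card = (A.attach.image (fun n => (⟨n.1, hA n.2⟩ : N))).card := by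
    rw [Finset.card_image_of_injective, Finset.card_attach]
    intro n m hnm
    simp only [Subtype.mk.injEq] at hnm
    exact Subtype.ext hnm
  rw [h1]
  apply Finset.card_le_card
  intro n hn
  rw [Finset.mem_image] at hn
  obtain ⟨m, _, rfl⟩ := hn
  rw [Finset.mem_filter]
  exact ⟨Finset.mem_univ _, hx m.1 m.2⟩

/-- Every site of a full block sees a majority of `1`. -/
theorem maj_of_block {x : Config 2 Bool} (h : ∀ i ∈ blk, x i = true) {i : Site 2} (hi : i ∈ blk) :
    maj ((noisyMajority θ).pattern x i) = true := by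
  have key : ∀ A : Finset (Site 2), A ⊆ N → A.card = 3 → (∀ n ∈ A, x (i + n) = true) →
      maj ((noisyMajority θ).pattern x i) = true := fun A hA hc hx =>
    maj_of_three _ A hA hc (fun n hn => hx n hn)
  simp only [blk, Finset.mem_insert, Finset.mem_singleton] at hi
  rcases hi with rfl | rfl | rfl | rfl
  · apply key {![0, 0], ![1, 0], ![0, 1]} (by decide) (by decide)
    intro n hn
    apply h
    simp only [Finset.mem_insert, Finset.mem_singleton] at hn
    rcases hn with rfl | rfl | rfl <;> decide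
  · apply key {![0, 0], ![-1, 0], ![0, 1]} (by decide) (by decide)
    intro n hn
    apply h
    simp only [Finset.mem_insert, Finset.mem_singleton] at hn
    rcases hn with rfl | rfl | rfl <;> decide
  · apply key {![0, 0], ![1, 0], ![0, -1]} (by decide) (by decide)
    intro n hn
    apply h
    simp only [Finset.mem_insert, Finset.mem_singleton] at hn
    rcases hn with rfl | rfl | rfl <;> decide
  · apply key {![0, 0], ![-1, 0], ![0, -1]} (by decide) (by decide)
    intro n hn
    apply h
    simp only [Finset.mem_insert, Finset.mem_singleton] at hn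
    rcases hn with rfl | rfl | rfl <;> decide

theorem op_b_ge (hε : 0 ≤ ε) (hδ : 0 ≤ δ) (h : ε + δ ≤ 1)
    (h1 : θ false true = ENNReal.ofReal ε) (h2 : θ true false = ENNReal.ofReal δ)
    (x : Config 2 Bool) :
    ENNReal.ofReal (ε ^ 4) + ENNReal.ofReal ((1 - δ) ^ 4 - ε ^ 4) * b x ≤
      (noisyMajority θ).op b x := by
  have h3 := theta_true_true hδ h2
  have hle : ε ^ 4 ≤ (1 - δ) ^ 4 := pow_le_pow_left₀ hε (by linarith) 4
  rw [op_b, b_eq]
  split_ifs with hx
  · rw [mul_one, ← ENNReal.ofReal_add (by positivity) (by linarith)]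
    have e1 : ∏ i ∈ blk, θ (maj ((noisyMajority θ).pattern x i)) true =
        ∏ _i ∈ blk, ENNReal.ofReal (1 - δ) := by
      apply Finset.prod_congr rfl
      intro i hi
      rw [maj_of_block hx hi, h3]
    rw [e1, Finset.prod_const, card_blk, ← ENNReal.ofReal_pow (by linarith)]
    apply ENNReal.ofReal_le_ofReal
    linarith
  · rw [mul_zero, add_zero]
    have e1 : ∏ _i ∈ blk, ENNReal.ofReal ε ≤
        ∏ i ∈ blk, θ (maj ((noisyMajority θ).pattern x i)) true := by
      apply Finset.prod_le_prod' 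
      intro i _
      cases maj ((noisyMajority θ).pattern x i) with
      | false => rw [h1]
      | true =>
        rw [h3]
        exact ENNReal.ofReal_le_ofReal (by linarith)
    rw [Finset.prod_const, card_blk, ← ENNReal.ofReal_pow hε] at e1
    exact e1

theorem b_dependsOn : DependsOn b (blk : Set (Site 2)) := dependsOn_cyl blk (fun _ => true)

theorem b_le_one (x : Config 2 Bool) : b x ≤ 1 := by
  rw [b_eq]; split_ifs <;> simp

/-- The block is full with high probability from every initial configuration. -/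
theorem block_prob (hε : 0 < ε) (hδ : 0 ≤ δ) (h : ε + δ ≤ 1)
    (h1 : θ false true = ENNReal.ofReal ε) (h2 : θ true false = ENNReal.ofReal δ)
    (x : Config 2 Bool) (n : ℕ) :
    1 - ((noisyMajority θ).op^[n] b x).toReal ≤ (1 - ε ^ 4) ^ n + 4 * δ / ε ^ 4 := by
  have hε4 : 0 < ε ^ 4 := by positivity
  have hε1 : ε ^ 4 ≤ 1 := pow_le_one₀ hε.le (by linarith)
  have hfin : ∀ n, (noisyMajority θ).op^[n] b x ≠ ∞ := fun n =>
    (((noisyMajority θ).op_iterate_le_one b_le_one n x).trans_lt ENNReal.one_lt_top).ne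
  induction n with
  | zero =>
    have : 0 ≤ ((noisyMajority θ).op^[0] b x).toReal := ENNReal.toReal_nonneg
    have : 0 ≤ 4 * δ / ε ^ 4 := by positivity
    rw [pow_zero]
    linarith
  | succ n ih =>
    have hle : ε ^ 4 ≤ (1 - δ) ^ 4 := pow_le_pow_left₀ hε.le (by linarith) 4
    have hmono : ∀ (f g : Config 2 Bool → ℝ≥0∞), (∀ y, f y ≤ g y) → ∀ (m : ℕ) (y : Config 2 Bool),
        (noisyMajority θ).op^[m] f y ≤ (noisyMajority θ).op^[m] g y := by
      intro f g hfg m
      induction m generalizing f g with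
      | zero => exact hfg
      | succ m ihm => exact ihm _ _ ((noisyMajority θ).op_mono hfg)
    have hstep := hmono _ _ (op_b_ge hε.le hδ h h1 h2) n x
    have hdep : DependsOn (fun y : Config 2 Bool => ENNReal.ofReal ((1 - δ) ^ 4 - ε ^ 4) * b y)
        (blk : Set (Site 2)) := by
      intro y y' hyy
      show ENNReal.ofReal ((1 - δ) ^ 4 - ε ^ 4) * b y = ENNReal.ofReal ((1 - δ) ^ 4 - ε ^ 4) * b y'
      rw [b_dependsOn hyy]
    have hdep0 : DependsOn (fun _ : Config 2 Bool => ENNReal.ofReal (ε ^ 4))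
        ((∅ : Finset (Site 2)) : Set (Site 2)) := fun _ _ _ => rfl
    rw [op_iterate_add hdep0 hdep, op_iterate_const, op_iterate_mul _ b_dependsOn,
      ← Function.iterate_succ_apply] at hstep
    have h3 := ENNReal.toReal_mono (hfin (n + 1)) hstep
    rw [ENNReal.toReal_add ENNReal.ofReal_ne_top
      (ENNReal.mul_ne_top ENNReal.ofReal_ne_top (hfin n)), ENNReal.toReal_mul,
      ENNReal.toReal_ofReal hε4.le, ENNReal.toReal_ofReal (by linarith)] at h3
    set U := ((noisyMajority θ).op^[n] b x).toReal with hU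
    set U' := ((noisyMajority θ).op^[n + 1] b x).toReal with hU'
    have hU1 : U ≤ 1 := by
      have := ENNReal.toReal_mono ENNReal.one_ne_top
        ((noisyMajority θ).op_iterate_le_one b_le_one n x)
      simpa using this
    have hbern : 1 - 4 * δ ≤ (1 - δ) ^ 4 := by
      have := one_add_mul_le_pow (a := -δ) (by linarith) 4
      have e : 1 + ((4 : ℕ) : ℝ) * -δ = 1 - 4 * δ := by push_cast; ring
      rw [e] at this
      simpa [sub_eq_add_neg] using this
    have hc1 : (1 - δ) ^ 4 ≤ 1 := pow_le_one₀ (by linarith) (by linarith)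
    have e1 : 1 - U' ≤ (1 - (1 - δ) ^ 4) + ((1 - δ) ^ 4 - ε ^ 4) * (1 - U) := by linarith
    have e2 : ((1 - δ) ^ 4 - ε ^ 4) * (1 - U) ≤ (1 - ε ^ 4) * (1 - U) :=
      mul_le_mul_of_nonneg_right (by linarith) (by linarith)
    have e3 : (1 - ε ^ 4) * (1 - U) ≤ (1 - ε ^ 4) * ((1 - ε ^ 4) ^ n + 4 * δ / ε ^ 4) :=
      mul_le_mul_of_nonneg_left ih (by linarith)
    have e4 : (1 - ε ^ 4) * ((1 - ε ^ 4) ^ n + 4 * δ / ε ^ 4) =
        (1 - ε ^ 4) ^ (n + 1) + 4 * δ / ε ^ 4 - 4 * δ := by
      rw [pow_succ]
      field_simp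
      ring
    linarith

/-! ### The finite-size criterion -/

/-- The box `[-T, T]^2`. -/
noncomputable def box (T : ℕ) : Finset (Site 2) := Finset.Icc (fun _ => -(T : ℤ)) (fun _ => (T : ℤ))

theorem card_box (T : ℕ) : (box T).card = (2 * T + 1) ^ 2 := by
  unfold box
  rw [Pi.card_Icc, Fin.prod_univ_two, Int.card_Icc]
  have : ((T : ℤ) + 1 - -(T : ℤ)).toNat = 2 * T + 1 := by omega
  rw [this]
  ring

theorem cone_subset (θ : Bool → PMF Bool) (t : ℕ) : ∀ (k : ℕ) (A : Finset (Site 2)), A ⊆ box k →
    (noisyMajority θ).cone t A ⊆ box (k + t) := by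
  induction t with
  | zero => intro k A hA; exact hA
  | succ t ih =>
    intro k A hA
    have h1 : A + N ⊆ box (k + 1) := by
      intro i hi
      obtain ⟨a, ha, n, hn, rfl⟩ := Finset.mem_add.1 hi
      have ha' := hA ha
      unfold box at ha' ⊢
      rw [Finset.mem_Icc, Pi.le_def, Pi.le_def] at ha' ⊢
      have hn' : ∀ j, -1 ≤ n j ∧ n j ≤ 1 := by
        simp only [N, Finset.mem_insert, Finset.mem_singleton] at hn
        rcases hn with rfl | rfl | rfl | rfl | rfl <;> decide
      constructor
      · intro j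
        have := ha'.1 j
        have := (hn' j).1
        simp only [Pi.add_apply]
        push_cast
        omega
      · intro j
        have := ha'.2 j
        have := (hn' j).2
        simp only [Pi.add_apply]
        push_cast
        omega
    have h2 := ih (k + 1) (A + N) h1
    have e : k + (t + 1) = k + 1 + t := by ring
    rw [e]
    exact h2

theorem dep_box (θ : Bool → PMF Bool) (T : ℕ) :
    DependsOn ((noisyMajority θ).op^[T] (e 0)) (box T : Set (Site 2)) := by
  have h := (noisyMajority θ).op_iterate_dependsOn T (e_dependsOn (0 : Site 2))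
  intro x y hxy
  apply h
  intro i hi
  apply hxy
  have := cone_subset θ T 0 {0} (by
    intro i hi
    rw [Finset.mem_singleton] at hi
    subst hi
    unfold box
    rw [Finset.mem_Icc]
    constructor <;> intro j <;> simp) hi
  simpa using this

/-- For every rate `ε` of errors `0 → 1` the automaton is ergodic as soon as the rate `δ` of errors
`1 → 0` is small enough. -/
theorem biased (hε : 0 < ε) (hε1 : ε < 1) : ∃ δ₀ : ℝ, 0 < δ₀ ∧ ∀ δ : ℝ, 0 ≤ δ → δ < δ₀ →
    ∀ θ : Bool → PMF Bool, θ false true = ENNReal.ofReal ε → θ true false = ENNReal.ofReal δ →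
      ∃ π : Measure (Config 2 Bool), ErgodicWith (noisyMajority θ) π := by
  have hε4 : 0 < ε ^ 4 := by positivity
  have hε41 : ε ^ 4 < 1 := pow_lt_one₀ hε.le hε1 (by norm_num)
  have hlim := tendsto_pow_const_mul_const_pow_of_lt_one 2 (r := 1 - ε ^ 4) (by linarith)
    (by linarith)
  have hlim' : Tendsto (fun n : ℕ => 9 * ((n : ℝ) ^ 2 * (1 - ε ^ 4) ^ n)) atTop (𝓝 0) := by
    simpa using hlim.const_mul 9
  obtain ⟨T, hT, hT1⟩ := ((hlim'.eventually_lt_const (show (0 : ℝ) < 1 / 2 by norm_num)).and
    (eventually_ge_atTop 1)).exists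
  have hTr : (1 : ℝ) ≤ T := by exact_mod_cast hT1
  set M : ℝ := (2 * T + 1) ^ 2 with hM
  have hM0 : 0 < M := by positivity
  have hM9 : M ≤ 9 * (T : ℝ) ^ 2 := by rw [hM]; nlinarith
  refine ⟨min (1 - ε) (ε ^ 4 / (16 * M)), lt_min (by linarith) (by positivity), ?_⟩
  intro δ hδ hδ0 θ h1 h2
  have hδ1 : δ < 1 - ε := lt_of_lt_of_le hδ0 (min_le_left _ _)
  have hδ2 : δ < ε ^ 4 / (16 * M) := lt_of_lt_of_le hδ0 (min_le_right _ _)
  set R := rep hε.le hδ (by linarith) h1 h2
  apply ergodic_of_gap R
  set ρ : ℝ := (1 - ε ^ 4) ^ T + 4 * δ / ε ^ 4 with hρ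
  apply gap_tendsto R (T := T) (box T) (dep_box θ T) (ρ := ρ)
  · -- the gap at time `T`
    have hb := block_prob (θ := θ) hε hδ (by linarith) h1 h2 bot T
    have hmono : ((noisyMajority θ).op^[T] b bot).toReal ≤
        ((noisyMajority θ).op^[T] (e 0) bot).toReal := by
      apply ENNReal.toReal_mono (fin_e T 0 _)
      have hmono : ∀ (f g : Config 2 Bool → ℝ≥0∞), (∀ y, f y ≤ g y) → ∀ (m : ℕ)
          (y : Config 2 Bool),
          (noisyMajority θ).op^[m] f y ≤ (noisyMajority θ).op^[m] g y := by
        intro f g hfg m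
        induction m generalizing f g with
        | zero => exact hfg
        | succ m ihm => exact ihm _ _ ((noisyMajority θ).op_mono hfg)
      exact hmono _ _ b_le_e T bot
    have htop : ((noisyMajority θ).op^[T] (e 0) top).toReal ≤ 1 := by
      have := ENNReal.toReal_mono ENNReal.one_ne_top
        ((noisyMajority θ).op_iterate_le_one (e_le_one 0) T top)
      simpa using this
    unfold gap
    linarith
  · rw [card_box]
    push_cast
    rw [← hM]
    have e1 : (1 - ε ^ 4) ^ T * M < 1 / 2 := by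
      have hp : 0 ≤ (1 - ε ^ 4) ^ T := pow_nonneg (by linarith) _
      calc (1 - ε ^ 4) ^ T * M ≤ (1 - ε ^ 4) ^ T * (9 * (T : ℝ) ^ 2) :=
            mul_le_mul_of_nonneg_left hM9 hp
        _ = 9 * ((T : ℝ) ^ 2 * (1 - ε ^ 4) ^ T) := by ring
        _ < 1 / 2 := hT
    have e2 : 4 * δ / ε ^ 4 * M ≤ 1 / 4 := by
      rw [lt_div_iff₀ (by positivity)] at hδ2
      rw [div_mul_eq_mul_div, div_le_iff₀ hε4]
      nlinarith
    rw [hρ, add_mul]
    linarith

/-- A noise with given error rates. -/
noncomputable def noise (ε δ : ℝ) (hε : ENNReal.ofReal ε ≤ 1) (hδ : ENNReal.ofReal δ ≤ 1) :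
    Bool → PMF Bool := fun a =>
  if a = true then PMF.ofFintype (fun c => if c = true then 1 - ENNReal.ofReal δ else
      ENNReal.ofReal δ) (by
        rw [Fintype.sum_bool]; simpa using tsub_add_cancel_of_le hδ)
  else PMF.ofFintype (fun c => if c = true then ENNReal.ofReal ε else 1 - ENNReal.ofReal ε) (by
        rw [Fintype.sum_bool]; simpa using add_tsub_cancel_of_le hε)

/-- For every `ε₀ > 0` there is a positive zero-range noise `θ` with error level at most `ε₀` such
that the perturbed majority automaton is ergodic; more precisely, for every `ε ∈ (0,1)` there is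
`δ₀ > 0` such that every positive noise with `θ(0,1) = ε` and `θ(1,0) < δ₀` gives an ergodic
automaton. -/
theorem result :
    (∀ ε₀ : ℝ, 0 < ε₀ → ∃ θ : Bool → PMF Bool, (∀ a c, 0 < θ a c) ∧ errorLevel θ ≤ ε₀ ∧
      ∃ π : Measure (Config 2 Bool), ErgodicWith (noisyMajority θ) π) ∧
    (∀ ε : ℝ, 0 < ε → ε < 1 → ∃ δ₀ : ℝ, 0 < δ₀ ∧ ∀ δ : ℝ, 0 ≤ δ → δ < δ₀ →
      ∀ θ : Bool → PMF Bool, θ false true = ENNReal.ofReal ε →
        θ true false = ENNReal.ofReal δ →
          ∃ π : Measure (Config 2 Bool), ErgodicWith (noisyMajority θ) π) := by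
  refine ⟨fun ε₀ hε₀ => ?_, fun ε hε hε1 => biased hε hε1⟩
  set ε : ℝ := min ε₀ (1 / 2) with hε
  have hε0 : 0 < ε := lt_min hε₀ (by norm_num)
  have hε2 : ε ≤ 1 / 2 := min_le_right _ _
  obtain ⟨δ₀, hδ₀, hδ⟩ := biased hε0 (by linarith)
  set δ : ℝ := min ε (δ₀ / 2) with hδd
  have hδ0 : 0 < δ := lt_min hε0 (by linarith)
  have hδε : δ ≤ ε := min_le_left _ _
  have hδδ : δ < δ₀ := lt_of_le_of_lt (min_le_right _ _) (by linarith)
  have h1 : ENNReal.ofReal ε ≤ 1 := by
    rw [← ENNReal.ofReal_one]; exact ENNReal.ofReal_le_ofReal (by linarith)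
  have h2 : ENNReal.ofReal δ ≤ 1 := by
    rw [← ENNReal.ofReal_one]; exact ENNReal.ofReal_le_ofReal (by linarith)
  have v1 : noise ε δ h1 h2 false true = ENNReal.ofReal ε := by simp [noise]
  have v2 : noise ε δ h1 h2 false false = ENNReal.ofReal (1 - ε) := by
    rw [ENNReal.ofReal_sub _ hε0.le, ENNReal.ofReal_one]; simp [noise]
  have v3 : noise ε δ h1 h2 true true = ENNReal.ofReal (1 - δ) := by
    rw [ENNReal.ofReal_sub _ hδ0.le, ENNReal.ofReal_one]; simp [noise]
  have v4 : noise ε δ h1 h2 true false = ENNReal.ofReal δ := by simp [noise]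
  refine ⟨noise ε δ h1 h2, ?_, ?_, hδ δ hδ0.le hδδ _ v1 v4⟩
  · intro a c
    cases a <;> cases c
    · rw [v2, ENNReal.ofReal_pos]; linarith
    · rw [v1, ENNReal.ofReal_pos]; exact hε0
    · rw [v4, ENNReal.ofReal_pos]; exact hδ0
    · rw [v3, ENNReal.ofReal_pos]; linarith
  · unfold errorLevel
    rw [v2, v3, ENNReal.toReal_ofReal (by linarith), ENNReal.toReal_ofReal (by linarith)]
    have : ε ≤ ε₀ := min_le_left _ _
    apply max_le <;> linarith

end Pool.Agent.Results.MP_417bbc_pr.BiasedNoiseErgodic
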